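import Pool.Agent.Helper49.KX.St

set_option autoImplicit false

/-! Project KX (helper49), module BBA. -/

namespace Pool.Agent.Helper16.KX

open Pool.Agent.Helper49.KX

private theorem cmp_mul {X : Type} [TopologicalSpace X] (h : X ≃ₜ X) (n : ℤ) (f g : C(X, ℂ)) :
    cmp h n (f * g) = cmp h n f * cmp h n g := rfl

private theorem cmp_zero {X : Type} [TopologicalSpace X] (h : X ≃ₜ X) (n : ℤ) :
    cmp h n (0 : C(X, ℂ)) = 0 := rfl

private theorem cmp_cmp {X : Type} [TopologicalSpace X] (h : X ≃ₜ X) (m n : ℤ) (f : C(X, ℂ)) :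
    cmp h m (cmp h n f) = cmp h (m + n) f := by
  ext x
  rw [cmp_apply, cmp_apply, cmp_apply]
  congr 1
  rw [add_comm, zpow_add]
  rfl

private theorem cmp_sum {X ι : Type} [TopologicalSpace X] (h : X ≃ₜ X) (n : ℤ) (s : Finset ι)
    (f : ι → C(X, ℂ)) : cmp h n (∑ i ∈ s, f i) = ∑ i ∈ s, cmp h n (f i) := by
  ext x
  rw [cmp_apply, ContinuousMap.sum_apply, ContinuousMap.sum_apply]
  rfl

theorem hBBA : StBba := by
  intro hE X _ h A _ _ j U hc n Y r hT g N M hg hM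
  obtain ⟨h1, -, -, -, -⟩ := hE X h A j U hc
  let e : FS X →+ A := Finsupp.liftAddHom fun n : ℤ =>
    (AddMonoidHom.mulRight ((U ^ n : Aˣ) : A)).comp (j : C(X, ℂ) →+ A)
  have he : ∀ g : FS X, ev j U g = e g := fun g => rfl
  have hs : ∀ (m : ℤ) (f : C(X, ℂ)), ev j U (Finsupp.single m f) = j f * ((U ^ m : Aˣ) : A) := by
    intro m f
    unfold ev
    rw [Finsupp.sum_single_index]
    rw [map_zero, zero_mul]
  have hBB : ∀ M : ∀ v, Matrix (Fin (r v)) (Fin (r v)) C(X, ℂ), ev j U (BB h Y r M) =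
      ∑ v, ∑ i : Fin (r v), ∑ k : Fin (r v), j (cmp h (-((i : ℕ) : ℤ)) (chi (Y v) * M v i k)) *
        ((U ^ (((i : ℕ) : ℤ) - ((k : ℕ) : ℤ)) : Aˣ) : A) := by
    intro M
    rw [he]
    unfold BB
    rw [map_sum]
    refine Finset.sum_congr rfl fun v _ => ?_
    rw [map_sum]
    refine Finset.sum_congr rfl fun i _ => ?_
    rw [map_sum]
    refine Finset.sum_congr rfl fun k _ => ?_
    rw [← he, hs]
  rw [hBB, hBB, Finset.mul_sum]
  refine Finset.sum_congr rfl fun v _ => ?_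
  -- the terms
  have key : ∀ i l : Fin (r v),
      ev j U g * (j (cmp h (-((i : ℕ) : ℤ)) (chi (Y v) * M v i l)) *
        ((U ^ (((i : ℕ) : ℤ) - ((l : ℕ) : ℤ)) : Aˣ) : A)) =
      ∑ k : Fin (r v), j (g (((k : ℕ) : ℤ) - ((i : ℕ) : ℤ)) *
        cmp h (-((k : ℕ) : ℤ)) (chi (Y v) * M v i l)) *
          ((U ^ (((k : ℕ) : ℤ) - ((l : ℕ) : ℤ)) : Aˣ) : A) := by
    intro i l
    set F : C(X, ℂ) := chi (Y v) * M v i l with hF
    set φ : ℤ → A := fun k => j (g (k - ((i : ℕ) : ℤ)) * cmp h (-k) F) *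
      ((U ^ (k - ((l : ℕ) : ℤ)) : Aˣ) : A) with hφ
    by_cases hi : i ∈ SB (r v) N
    · have hF0 : F = 0 := by
        ext x
        rw [hF, ContinuousMap.mul_apply, ContinuousMap.zero_apply, chi_apply (hT.clopen v)]
        by_cases hx : x ∈ Y v
        · rw [hM v x hx i hi l, mul_zero]
        · rw [if_neg hx, zero_mul]
      rw [hF0, cmp_zero, map_zero, zero_mul, mul_zero]
      symm
      refine Finset.sum_eq_zero fun k _ => ?_
      rw [cmp_zero, mul_zero, map_zero, zero_mul]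
    · have hi1 : N ≤ (i : ℕ) ∧ (i : ℕ) + N < r v := by
        unfold SB at hi
        rw [Finset.mem_filter] at hi
        push Not at hi
        have := hi (Finset.mem_univ i)
        exact ⟨this.1, this.2⟩
      have e1 : ev j U g * (j (cmp h (-((i : ℕ) : ℤ)) F) *
          ((U ^ (((i : ℕ) : ℤ) - ((l : ℕ) : ℤ)) : Aˣ) : A)) =
          ∑ m ∈ g.support, φ (m + ((i : ℕ) : ℤ)) := by
        unfold ev
        rw [Finsupp.sum, Finset.sum_mul]
        refine Finset.sum_congr rfl fun m _ => ?_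
        rw [hφ]
        dsimp only
        rw [add_sub_cancel_right, map_mul, mul_assoc, ← mul_assoc ((U ^ m : Aˣ) : A), h1, cmp_cmp,
          mul_assoc (j (g m)), mul_assoc (j (cmp h (-m + -((i : ℕ) : ℤ)) F)), ← Units.val_mul,
          ← zpow_add]
        congr 4
        · ring
        · ring
      have e2 : ∑ m ∈ g.support, φ (m + ((i : ℕ) : ℤ)) =
          ∑ m ∈ Finset.Ico (-((i : ℕ) : ℤ)) (((r v : ℕ) : ℤ) - ((i : ℕ) : ℤ)),
            φ (m + ((i : ℕ) : ℤ)) := by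
        refine Finset.sum_subset ?_ ?_
        · intro m hm
          rw [Finsupp.mem_support_iff] at hm
          have h6 : |m| ≤ N := by
            by_contra h7
            exact hm (hg m (by omega))
          rw [abs_le] at h6
          rw [Finset.mem_Ico]
          omega
        · intro m _ hm
          rw [Finsupp.notMem_support_iff] at hm
          rw [hφ]
          dsimp only
          rw [add_sub_cancel_right, hm, zero_mul, map_zero, zero_mul]
      rw [e1, e2]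
      symm
      refine Finset.sum_bij (fun (k : Fin (r v)) _ => ((k : ℕ) : ℤ) - ((i : ℕ) : ℤ)) ?_ ?_ ?_ ?_
      · intro k _
        have := k.2
        rw [Finset.mem_Ico]
        omega
      · intro a _ b _ hab
        apply Fin.ext
        omega
      · intro m hm
        rw [Finset.mem_Ico] at hm
        refine ⟨⟨(m + ((i : ℕ) : ℤ)).toNat, by omega⟩, Finset.mem_univ _, ?_⟩
        show (((m + ((i : ℕ) : ℤ)).toNat : ℕ) : ℤ) - ((i : ℕ) : ℤ) = m
        omega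
      · intro k _
        rw [hφ]
        dsimp only
        rw [sub_add_cancel]
  rw [Finset.mul_sum]
  have lhs : ∀ i : Fin (r v), ev j U g * (∑ l : Fin (r v),
      j (cmp h (-((i : ℕ) : ℤ)) (chi (Y v) * M v i l)) *
        ((U ^ (((i : ℕ) : ℤ) - ((l : ℕ) : ℤ)) : Aˣ) : A)) =
      ∑ l : Fin (r v), ∑ k : Fin (r v), j (g (((k : ℕ) : ℤ) - ((i : ℕ) : ℤ)) *
        cmp h (-((k : ℕ) : ℤ)) (chi (Y v) * M v i l)) *
          ((U ^ (((k : ℕ) : ℤ) - ((l : ℕ) : ℤ)) : Aˣ) : A) := by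
    intro i
    rw [Finset.mul_sum]
    exact Finset.sum_congr rfl fun l _ => key i l
  have rhs : ∀ k l : Fin (r v), j (cmp h (-((k : ℕ) : ℤ)) (chi (Y v) * (cm h (r v) g * M v) k l)) *
        ((U ^ (((k : ℕ) : ℤ) - ((l : ℕ) : ℤ)) : Aˣ) : A) =
      ∑ i : Fin (r v), j (g (((k : ℕ) : ℤ) - ((i : ℕ) : ℤ)) *
        cmp h (-((k : ℕ) : ℤ)) (chi (Y v) * M v i l)) *
          ((U ^ (((k : ℕ) : ℤ) - ((l : ℕ) : ℤ)) : Aˣ) : A) := by
    intro k l
    rw [← Finset.sum_mul, ← map_sum]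
    congr 2
    rw [Matrix.mul_apply, Finset.mul_sum, cmp_sum]
    refine Finset.sum_congr rfl fun i _ => ?_
    rw [cm, mul_left_comm, cmp_mul, cmp_cmp, neg_add_cancel]
    congr 1
  rw [Finset.sum_congr rfl fun i _ => lhs i]
  have rhs2 : ∀ k : Fin (r v), ∑ l : Fin (r v),
      j (cmp h (-((k : ℕ) : ℤ)) (chi (Y v) * (cm h (r v) g * M v) k l)) *
        ((U ^ (((k : ℕ) : ℤ) - ((l : ℕ) : ℤ)) : Aˣ) : A) =
      ∑ l : Fin (r v), ∑ i : Fin (r v), j (g (((k : ℕ) : ℤ) - ((i : ℕ) : ℤ)) *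
        cmp h (-((k : ℕ) : ℤ)) (chi (Y v) * M v i l)) *
          ((U ^ (((k : ℕ) : ℤ) - ((l : ℕ) : ℤ)) : Aˣ) : A) :=
    fun k => Finset.sum_congr rfl fun l _ => rhs k l
  rw [Finset.sum_congr rfl fun k _ => rhs2 k]
  calc _ = ∑ l : Fin (r v), ∑ i : Fin (r v), ∑ k : Fin (r v),
        j (g (((k : ℕ) : ℤ) - ((i : ℕ) : ℤ)) *
        cmp h (-((k : ℕ) : ℤ)) (chi (Y v) * M v i l)) *
          ((U ^ (((k : ℕ) : ℤ) - ((l : ℕ) : ℤ)) : Aˣ) : A) := Finset.sum_comm
    _ = ∑ l : Fin (r v), ∑ k : Fin (r v), ∑ i : Fin (r v),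
        j (g (((k : ℕ) : ℤ) - ((i : ℕ) : ℤ)) *
        cmp h (-((k : ℕ) : ℤ)) (chi (Y v) * M v i l)) *
          ((U ^ (((k : ℕ) : ℤ) - ((l : ℕ) : ℤ)) : Aˣ) : A) :=
        Finset.sum_congr rfl fun l _ => Finset.sum_comm
    _ = _ := Finset.sum_comm

end Pool.Agent.Helper16.KX
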